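import Pool.Agent.H53.StarAsymp

/-!
# The lower threshold bias of the strict `k`-star game has order `n ^ ((k + 1) / k)` for all `n`
-/

open Filter Asymptotics Pool.Agent.H53.AE

namespace Pool.Agent.Results.MP_64b4f3_co.LowerThreshold

theorem root_pow {n k : ℕ} (hk : 3 ≤ k) : (((n : ℝ) ^ ((k : ℝ)⁻¹)) ^ k : ℝ) = n :=
  Real.rpow_inv_natCast_pow (Nat.cast_nonneg n) (by omega)

theorem rpow_eq {n k : ℕ} (hk : 3 ≤ k) (hn : 1 ≤ n) :
    (n : ℝ) ^ (((k : ℝ) + 1) / (k : ℝ)) = n * (n : ℝ) ^ ((k : ℝ)⁻¹) := by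
  have hk0 : (3 : ℝ) ≤ k := by exact_mod_cast hk
  have hn0 : (0 : ℝ) < n := by exact_mod_cast hn
  have h1 : ((k : ℝ) + 1) / (k : ℝ) = 1 + (k : ℝ)⁻¹ := by
    have : (k : ℝ) ≠ 0 := by linarith
    field_simp
  rw [h1, Real.rpow_add hn0, Real.rpow_one]

/-- For every `k ≥ 3` the lower threshold bias `f⁻_{n,k}` of the strict `(1 : b)` `k`-star game on
`K_n` has order of magnitude `n ^ ((k + 1) / k)` as `n → ∞`, without restriction on `n`. -/
theorem result (k : ℕ) (hk : 3 ≤ k) :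
    (fun n : ℕ => (fMinus n k : ℝ)) =Θ[atTop]
      (fun n : ℕ => (n : ℝ) ^ (((k : ℝ) + 1) / (k : ℝ))) := by
  have hk0 : (3 : ℝ) ≤ k := by exact_mod_cast hk
  have hlim : Tendsto (fun n : ℕ => (n : ℝ) ^ ((k : ℝ)⁻¹)) atTop atTop := by
    have h1 : (0 : ℝ) < ((k : ℝ)⁻¹) := by positivity
    exact (tendsto_rpow_atTop h1).comp tendsto_natCast_atTop_atTop
  -- an upper bound for the set of biases
  have hub : ∀ᶠ n : ℕ in atTop, ∀ m ∈ {m : ℕ | ∀ b, 1 ≤ b → b ≤ m → EnforcerWinsStar n k b},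
      (m : ℝ) ≤ 19 * (n : ℝ) * (n : ℝ) ^ ((k : ℝ)⁻¹) := by
    filter_upwards [hlim.eventually_ge_atTop 100] with n hy m hm
    obtain ⟨b, hb1, hb2, hb3⟩ := exists_avoider hk (root_pow hk) hy
    have h1 : m < b := by
      by_contra hcon
      push Not at hcon
      exact (avoider_iff n k b).1 hb3 (hm b hb1 hcon)
    have h2 : (m : ℝ) ≤ b := by exact_mod_cast h1.le
    linarith
  have hbdd : ∀ᶠ n : ℕ in atTop,
      BddAbove {m : ℕ | ∀ b, 1 ≤ b → b ≤ m → EnforcerWinsStar n k b} := by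
    filter_upwards [hub] with n hn
    refine ⟨⌊19 * (n : ℝ) * (n : ℝ) ^ ((k : ℝ)⁻¹)⌋₊, fun m hm => ?_⟩
    exact Nat.le_floor (hn m hm)
  constructor
  · refine IsBigO.of_bound 19 ?_
    filter_upwards [hub, hbdd, eventually_ge_atTop 1] with n hn hbd hn1
    rw [rpow_eq hk hn1]
    have hmem : fMinus n k ∈ {m : ℕ | ∀ b, 1 ≤ b → b ≤ m → EnforcerWinsStar n k b} := by
      refine Nat.sSup_mem ⟨0, ?_⟩ hbd
      intro b hb1 hb2
      omega
    have h1 := hn _ hmem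
    rw [Real.norm_of_nonneg (by positivity), Real.norm_of_nonneg (by positivity)]
    linarith
  · refine IsBigO.of_bound (128 * (k : ℝ) ^ 2) ?_
    filter_upwards [hbdd, eventually_ge_atTop 1, eventually_ge_atTop (8 * k),
      hlim.eventually_ge_atTop (64 * (k : ℝ) ^ 2)] with n hbd hn1 hn8 hy
    rw [rpow_eq hk hn1]
    set y : ℝ := (n : ℝ) ^ ((k : ℝ)⁻¹) with hydef
    have hn1' : (1 : ℝ) ≤ n := by exact_mod_cast hn1
    have hy0 : 0 < y := by nlinarith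
    have h1 : ⌊(n : ℝ) * y / (64 * (k : ℝ) ^ 2)⌋₊ ≤ fMinus n k := by
      refine le_csSup hbd ?_
      intro b hb1 hb2
      refine enforcer_all hk (root_pow hk) hy hn8 hb1 ?_
      have h2 : (b : ℝ) ≤ ⌊(n : ℝ) * y / (64 * (k : ℝ) ^ 2)⌋₊ := by exact_mod_cast hb2
      have h3 := Nat.floor_le (show 0 ≤ (n : ℝ) * y / (64 * (k : ℝ) ^ 2) by positivity)
      have h4 := h2.trans h3
      rw [le_div_iff₀ (by positivity)] at h4
      linarith
    have h2 : ((⌊(n : ℝ) * y / (64 * (k : ℝ) ^ 2)⌋₊ : ℕ) : ℝ) ≤ fMinus n k := by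
      exact_mod_cast h1
    have h3 := (Nat.lt_floor_add_one ((n : ℝ) * y / (64 * (k : ℝ) ^ 2))).le
    have h4 : (1 : ℝ) ≤ n * y / (64 * (k : ℝ) ^ 2) := by
      rw [le_div_iff₀ (by positivity)]
      nlinarith
    have h5 : (1 : ℝ) ≤ fMinus n k := by
      have h6 : 1 ≤ ⌊(n : ℝ) * y / (64 * (k : ℝ) ^ 2)⌋₊ := Nat.le_floor (by exact_mod_cast h4)
      exact_mod_cast h6.trans h1
    rw [Real.norm_of_nonneg (by positivity), Real.norm_of_nonneg (by positivity)]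
    have h7 : (n : ℝ) * y / (64 * (k : ℝ) ^ 2) ≤ 2 * fMinus n k := by linarith
    rw [div_le_iff₀ (by positivity)] at h7
    linarith

end Pool.Agent.Results.MP_64b4f3_co.LowerThreshold
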