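import Pool.Agent.H53.StarAsymp

/-!
# The upper threshold bias of the strict `k`-star game has order `n ^ (k / (k - 1))` for all `n`
-/

open Filter Asymptotics Pool.Agent.H53.AE

namespace Pool.Agent.Results.MP_64b4f3_co.UpperThreshold

theorem root_pow {n k : ℕ} (hk : 3 ≤ k) :
    (((n : ℝ) ^ (((k - 1 : ℕ) : ℝ)⁻¹)) ^ (k - 1) : ℝ) = n :=
  Real.rpow_inv_natCast_pow (Nat.cast_nonneg n) (by omega)

theorem rpow_eq {n k : ℕ} (hk : 3 ≤ k) (hn : 1 ≤ n) :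
    (n : ℝ) ^ ((k : ℝ) / ((k : ℝ) - 1)) = n * (n : ℝ) ^ (((k - 1 : ℕ) : ℝ)⁻¹) := by
  have hk1 : ((k - 1 : ℕ) : ℝ) = (k : ℝ) - 1 := by
    rw [Nat.cast_sub (by omega)]; simp
  have hk0 : (3 : ℝ) ≤ k := by exact_mod_cast hk
  have hn0 : (0 : ℝ) < n := by exact_mod_cast hn
  have h1 : (k : ℝ) / ((k : ℝ) - 1) = 1 + ((k : ℝ) - 1)⁻¹ := by
    have : (k : ℝ) - 1 ≠ 0 := by linarith
    field_simp
    ring
  rw [h1, hk1, Real.rpow_add hn0, Real.rpow_one]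

/-- For every `k ≥ 3` the upper threshold bias `f⁺_{n,k}` of the strict `(1 : b)` `k`-star game on
`K_n` has order of magnitude `n ^ (k / (k - 1))` as `n → ∞`, without restriction on `n`. -/
theorem result (k : ℕ) (hk : 3 ≤ k) :
    (fun n : ℕ => (fPlus n k : ℝ)) =Θ[atTop]
      (fun n : ℕ => (n : ℝ) ^ ((k : ℝ) / ((k : ℝ) - 1))) := by
  have hk0 : (3 : ℝ) ≤ k := by exact_mod_cast hk
  -- Avoider wins for all large biases
  have hset : ∀ n : ℕ, 1 ≤ n → ⌈4 * (n : ℝ) * (n : ℝ) ^ (((k - 1 : ℕ) : ℝ)⁻¹)⌉₊ ∈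
      {m : ℕ | ∀ b, m < b → AvoiderWinsStar n k b} := by
    intro n hn b hb
    have hn1 : (1 : ℝ) ≤ n := by exact_mod_cast hn
    refine avoider_large hk (Real.one_le_rpow hn1 (by positivity)) (root_pow hk) ?_
    have h1 := Nat.le_ceil (4 * (n : ℝ) * (n : ℝ) ^ (((k - 1 : ℕ) : ℝ)⁻¹))
    have h2 : ((⌈4 * (n : ℝ) * (n : ℝ) ^ (((k - 1 : ℕ) : ℝ)⁻¹)⌉₊ : ℕ) : ℝ) ≤ b := by
      exact_mod_cast hb.le
    linarith
  constructor
  · -- upper bound
    refine IsBigO.of_bound 5 ?_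
    filter_upwards [eventually_ge_atTop 1] with n hn
    have hn1 : (1 : ℝ) ≤ n := by exact_mod_cast hn
    rw [rpow_eq hk hn]
    set y : ℝ := (n : ℝ) ^ (((k - 1 : ℕ) : ℝ)⁻¹) with hy
    have hy1 : 1 ≤ y := Real.one_le_rpow hn1 (by positivity)
    have h1 : fPlus n k ≤ ⌈4 * (n : ℝ) * y⌉₊ := Nat.sInf_le (hset n hn)
    have h2 : (fPlus n k : ℝ) ≤ ⌈4 * (n : ℝ) * y⌉₊ := by exact_mod_cast h1
    have h3 := (Nat.ceil_lt_add_one (show 0 ≤ 4 * (n : ℝ) * y by positivity)).le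
    rw [Real.norm_of_nonneg (by positivity), Real.norm_of_nonneg (by positivity)]
    nlinarith
  · -- lower bound
    refine IsBigO.of_bound (512 * (k : ℝ) ^ 2) ?_
    have hlim : Tendsto (fun n : ℕ => (n : ℝ) ^ (((k - 1 : ℕ) : ℝ)⁻¹)) atTop atTop := by
      have h1 : (0 : ℝ) < (((k - 1 : ℕ) : ℝ)⁻¹) := by
        have : (0 : ℝ) < ((k - 1 : ℕ) : ℝ) := by exact_mod_cast (by omega : 0 < k - 1)
        positivity
      exact (tendsto_rpow_atTop h1).comp tendsto_natCast_atTop_atTop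
    filter_upwards [eventually_ge_atTop (16 * k), eventually_ge_atTop 1,
      hlim.eventually_ge_atTop (1024 * (k : ℝ) ^ 2)] with n hn16 hn hy
    rw [rpow_eq hk hn]
    set y : ℝ := (n : ℝ) ^ (((k - 1 : ℕ) : ℝ)⁻¹) with hydef
    obtain ⟨b, hb1, hb2⟩ := exists_enforcer hk (root_pow hk) hy hn16
    have hmem : fPlus n k ∈ {m : ℕ | ∀ b, m < b → AvoiderWinsStar n k b} :=
      Nat.sInf_mem ⟨_, hset n hn⟩
    have h1 : b ≤ fPlus n k := by
      by_contra hcon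
      push Not at hcon
      exact (avoider_iff n k b).1 (hmem b hcon) hb2
    have h2 : (b : ℝ) ≤ fPlus n k := by exact_mod_cast h1
    have hn1 : (1 : ℝ) ≤ n := by exact_mod_cast hn
    have hy0 : 0 ≤ y := Real.rpow_nonneg (Nat.cast_nonneg n) _
    rw [Real.norm_of_nonneg (by positivity), Real.norm_of_nonneg (by positivity)]
    rw [div_le_iff₀ (by positivity)] at hb1
    calc (n : ℝ) * y ≤ b * (512 * (k : ℝ) ^ 2) := hb1
      _ ≤ fPlus n k * (512 * (k : ℝ) ^ 2) := by gcongr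
      _ = 512 * (k : ℝ) ^ 2 * fPlus n k := by ring

end Pool.Agent.Results.MP_64b4f3_co.UpperThreshold
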